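import Mathlib

/-!
Whiteman pairs come from the cubic iteration `w ↦ w^3 - 3 w` started at `4`.
-/

namespace Pool.Agent.P.MP_eb267f_nt

open Pell

theorem h12 : 1 < 2 := by norm_num

/-- `V m = (2+√3)^m + (2-√3)^m`. -/
def V (m : ℕ) : ℤ := 2 * xz h12 m

theorem V_add_sub {m n : ℕ} (h : n ≤ m) : V (m + n) + V (m - n) = V m * V n := by
  have h1 := xn_add h12 m n
  have h2 := xz_sub h12 h
  unfold V
  unfold xz yz at *
  have h1' : ((xn h12 (m + n) : ℕ) : ℤ) = _ := congrArg (Nat.cast : ℕ → ℤ) h1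
  push_cast at h1'
  rw [h1', h2]
  ring

theorem V_zero : V 0 = 2 := by simp [V, xz]

theorem V_one : V 1 = 4 := by simp [V, xz]

theorem V_strictMono : StrictMono V := by
  intro a b hab
  have := strictMono_x h12 hab
  unfold V xz
  omega

theorem V_three (n : ℕ) : V (3 * n) = V n ^ 3 - 3 * V n := by
  have h1 := V_add_sub (le_refl n)
  have h2 := V_add_sub (m := n + n) (n := n) (by omega)
  rw [Nat.sub_self, V_zero] at h1
  rw [show n + n - n = n by omega, show n + n + n = 3 * n by ring] at h2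
  have : V (n + n) = V n * V n - 2 := by linarith
  rw [this] at h2
  linarith [show V n ^ 3 = V n * V n * V n by ring]

theorem V_mod (d : ℕ) : ∀ k : ℕ, V (d * (3 * k)) ≡ 2 [ZMOD V d + 1] ∧
    V (d * (3 * k + 1)) ≡ -1 [ZMOD V d + 1] ∧ V (d * (3 * k + 2)) ≡ -1 [ZMOD V d + 1] := by
  have hd : V d ≡ -1 [ZMOD V d + 1] := by
    apply Int.ModEq.symm
    rw [Int.modEq_iff_dvd]
    simp
  have step : ∀ j : ℕ, V (d * (j + 2)) = V (d * (j + 1)) * V d - V (d * j) := by
    intro j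
    have := V_add_sub (m := d * (j + 1)) (n := d) (by nlinarith)
    rw [show d * (j + 1) + d = d * (j + 2) by ring,
      show d * (j + 1) - d = d * j by rw [mul_add, mul_one, Nat.add_sub_cancel]] at this
    linarith
  intro k
  induction k with
  | zero =>
    refine ⟨by simp [V_zero], by simpa using hd, ?_⟩
    have := step 0
    simp only [mul_zero, zero_add, mul_one, V_zero] at this ⊢
    rw [this]
    simpa using (hd.mul hd).sub (Int.ModEq.refl 2)
  | succ k ih =>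
    obtain ⟨h0, h1, h2⟩ := ih
    have a0 : V (d * (3 * (k + 1))) ≡ 2 [ZMOD V d + 1] := by
      rw [show 3 * (k + 1) = (3 * k + 1) + 2 by ring, step]
      simpa using (h2.mul hd).sub h1
    have a1 : V (d * (3 * (k + 1) + 1)) ≡ -1 [ZMOD V d + 1] := by
      rw [show 3 * (k + 1) + 1 = (3 * k + 2) + 2 by ring, step]
      rw [show 3 * (k + 1) = 3 * k + 2 + 1 by ring] at a0
      simpa using (a0.mul hd).sub h2
    refine ⟨a0, a1, ?_⟩
    rw [step]
    simpa using (a1.mul hd).sub a0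

theorem V_dvd (d k : ℕ) (hk : ¬ 3 ∣ k) : V d + 1 ∣ V (d * k) + 1 := by
  obtain ⟨j, hj⟩ : ∃ j, k = 3 * j + 1 ∨ k = 3 * j + 2 := ⟨k / 3, by omega⟩
  have := V_mod d j
  rcases hj with rfl | rfl
  · have := this.2.1.symm.dvd
    simpa using this
  · have := this.2.2.symm.dvd
    simpa using this

/-- The cubic iteration. -/
def W : ℕ → ℤ
  | 0 => 4
  | a + 1 => W a ^ 3 - 3 * W a

theorem W_eq (a : ℕ) : W a = V (3 ^ a) := by
  induction a with
  | zero => simp [W, V_one]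
  | succ a ih => rw [W, ih, pow_succ 3 a, mul_comm (3 ^ a) 3, V_three]

theorem d_eq (x y : ℕ) (h : x * x - 3 * y * y = 1) : ∃ n, x = xn h12 n ∧ y = yn h12 n :=
  eq_pell h12 h

theorem pell_three (n : ℕ) : xz h12 n * xz h12 n - 3 * yz h12 n * yz h12 n = 1 :=
  pell_eqz h12 n

theorem forward {p x : ℕ} (hp : p.Prime) (hq : (3 * p + 2).Prime)
    (h : p * (3 * p + 2) = 4 * x ^ 2 + 1) : ∃ a, 1 ≤ a ∧ (3 * p + 1 : ℤ) = W a := by
  have hodd : p % 2 = 1 := by
    rcases Nat.mod_two_eq_zero_or_one p with h0 | h1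
    · obtain ⟨t, rfl⟩ : ∃ t, p = 2 * t := ⟨p / 2, by omega⟩
      have : 2 * (t * (3 * (2 * t) + 2)) = 2 * (2 * x ^ 2) + 1 := by linarith
      omega
    · exact h1
  obtain ⟨t, rfl⟩ : ∃ t, p = 2 * t + 1 := ⟨p / 2, by omega⟩
  have hs : (3 * t + 2) * (3 * t + 2) - 3 * x * x = 1 := by
    have : (3 * t + 2) * (3 * t + 2) = 3 * x * x + 1 := by nlinarith
    omega
  obtain ⟨m, hm, -⟩ := d_eq _ _ hs
  have hV : V m = 3 * ((2 * t + 1 : ℕ) : ℤ) + 1 := by
    unfold V xz
    rw [← hm]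
    push_cast
    ring
  have hm0 : m ≠ 0 := by
    rintro rfl
    rw [V_zero] at hV
    omega
  obtain ⟨a, k, hk, rfl⟩ := Nat.exists_eq_pow_mul_and_not_dvd hm0 3 (by norm_num)
  have hdvd := V_dvd (3 ^ a) k hk
  have hge : 4 ≤ V (3 ^ a) := by
    rw [← V_one]
    exact V_strictMono.monotone (Nat.one_le_pow _ _ (by norm_num))
  have hq' : V (3 ^ a * k) + 1 = ((3 * (2 * t + 1) + 2 : ℕ) : ℤ) := by
    rw [hV]; push_cast; ring
  rw [hq'] at hdvd
  obtain ⟨r, hr⟩ : ∃ r : ℕ, V (3 ^ a) + 1 = r := ⟨(V (3 ^ a) + 1).toNat, by omega⟩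
  rw [hr, Int.natCast_dvd_natCast] at hdvd
  have hr2 : r = 3 * (2 * t + 1) + 2 := by
    rcases (Nat.dvd_prime hq).1 hdvd with h1 | h1
    · omega
    · exact h1
  have hWa : (3 * ((2 * t + 1 : ℕ) : ℤ) + 1) = W a := by
    rw [W_eq]
    rw [hr2] at hr
    push_cast at hr ⊢
    linarith
  refine ⟨a, ?_, hWa⟩
  rcases Nat.eq_zero_or_pos a with rfl | ha
  · simp only [W] at hWa
    have : 2 * t + 1 = 1 := by omega
    rw [this] at hp
    exact absurd hp Nat.not_prime_one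
  · exact ha

theorem backward {p a : ℕ} (h : (3 * p + 1 : ℤ) = W a) :
    ∃ x : ℕ, Odd x ∧ p * (3 * p + 2) = 4 * x ^ 2 + 1 := by
  refine ⟨yn h12 (3 ^ a), ?_, ?_⟩
  · have := yn_modEq_two h12 (3 ^ a)
    have h3 : Odd (3 ^ a) := Odd.pow (by decide)
    rw [Nat.odd_iff] at h3 ⊢
    unfold Nat.ModEq at this
    omega
  · have h1 := pell_three (3 ^ a)
    rw [W_eq] at h
    unfold V at h
    unfold yz at h1
    zify
    nlinarith

theorem W_ge (a : ℕ) : (3 : ℤ) ^ 3 ^ a + 1 ≤ W a := by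
  induction a with
  | zero => simp [W]
  | succ a ih =>
    rw [W, pow_succ 3 a, pow_mul]
    have h3 : (3 : ℤ) ≤ 3 ^ 3 ^ a := le_self_pow₀ (by norm_num) (by positivity)
    set y : ℤ := 3 ^ 3 ^ a
    obtain ⟨t, ht⟩ : ∃ t, W a = y + 1 + t ∧ 0 ≤ t := ⟨W a - (y + 1), by ring, by linarith⟩
    rw [ht.1]
    have := ht.2
    nlinarith [mul_nonneg this this, mul_nonneg this (mul_nonneg this this),
      mul_nonneg this (sub_nonneg.2 h3), mul_nonneg (mul_nonneg this this) (sub_nonneg.2 h3),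
      mul_nonneg this (mul_nonneg (sub_nonneg.2 h3) (sub_nonneg.2 h3)),
      mul_nonneg (sub_nonneg.2 h3) (sub_nonneg.2 h3)]

/-- The iteration modulo `r`. -/
def Wm (r : ℕ) : ℕ → ℕ
  | 0 => 4 % r
  | a + 1 => (Wm r a * ((Wm r a * Wm r a + 3 * (r - 1)) % r)) % r

theorem Wm_spec (r : ℕ) (hr : 1 ≤ r) (a : ℕ) : ((Wm r a : ℕ) : ZMod r) = ((W a : ℤ) : ZMod r) := by
  induction a with
  | zero => simp [Wm, W]
  | succ a ih =>
    rw [Wm, W]
    push_cast [ZMod.natCast_mod, Nat.cast_sub hr, ZMod.natCast_self]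
    rw [ih]
    ring

theorem not_pair_q {p a r : ℕ} (h : (3 * p + 1 : ℤ) = W a) (hr : 2 ≤ r) (hlt : r ≤ 3 ^ 3 ^ a)
    (hm : (Wm r a + 1) % r = 0) : ¬ (3 * p + 2).Prime := by
  intro hq
  have h1 := Wm_spec r (by omega) a
  have h2 : ((Wm r a + 1 : ℕ) : ZMod r) = 0 := by
    rw [ZMod.natCast_eq_zero_iff]; exact Nat.dvd_of_mod_eq_zero hm
  have h3 : ((3 * p + 2 : ℕ) : ZMod r) = 0 := by
    rw [← h] at h1
    push_cast at h1 h2 ⊢
    rw [h1] at h2
    linear_combination h2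
  rw [ZMod.natCast_eq_zero_iff] at h3
  have hge := W_ge a
  rw [← h] at hge
  have hlt' : ((r : ℕ) : ℤ) ≤ 3 ^ 3 ^ a := by exact_mod_cast hlt
  rcases (Nat.dvd_prime hq).1 h3 with h4 | h4 <;> omega

theorem not_pair_p {p a r : ℕ} (h : (3 * p + 1 : ℤ) = W a) (hr : 2 ≤ r) (hlt : 3 * r < 3 ^ 3 ^ a)
    (h3r : Nat.Coprime r 3) (hm : Wm r a = 1) : ¬ p.Prime := by
  intro hq
  have h1 := Wm_spec r (by omega) a
  have h3 : ((3 * p : ℕ) : ZMod r) = 0 := by
    rw [← h, hm] at h1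
    push_cast at h1 ⊢
    linear_combination -h1
  rw [ZMod.natCast_eq_zero_iff] at h3
  have h4 := h3r.dvd_of_dvd_mul_left h3
  have hge := W_ge a
  rw [← h] at hge
  have hlt' : 3 * ((r : ℕ) : ℤ) < 3 ^ 3 ^ a := by exact_mod_cast hlt
  rcases (Nat.dvd_prime hq).1 h4 with h4 | h4 <;> omega

/-- Forces the evaluation of a natural number before continuing. -/
def force (n : ℕ) (k : ℕ → ℕ) : ℕ := Nat.casesOn n (k 0) (fun m => k (m + 1))

theorem force_eq (n : ℕ) (k : ℕ → ℕ) : force n k = k n := by cases n <;> rfl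

/-- `acc * b ^ e` modulo `m` by repeated squaring, with fuel. -/
def powMod (m : ℕ) : ℕ → ℕ → ℕ → ℕ → ℕ
  | 0, acc, _, _ => acc
  | f + 1, acc, b, e =>
    force (e / 2) fun e' => force (b * b % m) fun b' =>
      force (cond (Nat.beq (e % 2) 0) acc (acc * b % m)) fun acc' => powMod m f acc' b' e'

theorem powMod_spec (m : ℕ) : ∀ f acc b e : ℕ, e < 2 ^ f →
    powMod m f acc b e ≡ acc * b ^ e [MOD m] := by
  intro f
  induction f with
  | zero =>
    intro acc b e he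
    have : e = 0 := by omega
    subst this
    simp [powMod, Nat.ModEq]
  | succ f ih =>
    intro acc b e he
    rw [powMod, force_eq, force_eq, force_eq]
    refine (ih _ _ _ (by omega)).trans ?_
    have hb : (b * b % m) ^ (e / 2) ≡ b ^ (2 * (e / 2)) [MOD m] := by
      rw [pow_mul, sq]
      exact (Nat.mod_modEq _ _).pow _
    rcases Nat.mod_two_eq_zero_or_one e with h | h
    · rw [h]
      have : e = 2 * (e / 2) := by omega
      conv_rhs => rw [this]
      exact (Nat.ModEq.refl acc).mul hb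
    · rw [h]
      have : e = 1 + 2 * (e / 2) := by omega
      conv_rhs => rw [this, pow_add, pow_one, ← mul_assoc]
      exact (Nat.mod_modEq _ _).mul hb

theorem not_prime_of_fermat {q f : ℕ} (hq2 : 2 < q) (hf : q - 1 < 2 ^ f)
    (h : powMod q f 1 2 (q - 1) % q ≠ 1) : ¬ q.Prime := by
  intro hq
  have h1 := powMod_spec q f 1 2 (q - 1) hf
  have hc : Nat.Coprime 2 q := (Nat.coprime_primes Nat.prime_two hq).2 (by omega)
  have h2 := Nat.ModEq.pow_totient hc
  rw [Nat.totient_prime hq] at h2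
  rw [one_mul] at h1
  have h3 := h1.trans h2
  unfold Nat.ModEq at h3
  rw [Nat.mod_eq_of_lt (by omega : 1 < q)] at h3
  exact h h3

/-- The iteration on natural numbers. -/
def Wn : ℕ → ℕ
  | 0 => 4
  | a + 1 => force (Wn a) fun w => w * (w * w - 3)

theorem Wn_spec (a : ℕ) : (Wn a : ℤ) = W a := by
  induction a with
  | zero => simp [Wn, W]
  | succ a ih =>
    have h := W_ge a
    have h3 : (3 : ℤ) ≤ 3 ^ 3 ^ a := le_self_pow₀ (by norm_num) (by positivity)
    have h4 : 4 ≤ Wn a := by omega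
    rw [Wn, force_eq, W, ← ih]
    have : 3 ≤ Wn a * Wn a := by nlinarith
    push_cast [Nat.cast_sub this]
    ring

end Pool.Agent.P.MP_eb267f_nt
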