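import Pool.Agent.P.MP_eb267f_nt.Core

namespace Pool.Agent.P.MP_eb267f_nt

theorem nine_check : (Nat.blt (Wn 9 + 1 - 1) (2 ^ 37400) &&
    !(Nat.beq (powMod (Wn 9 + 1) 37400 1 2 (Wn 9 + 1 - 1) % (Wn 9 + 1)) 1)) = true := by
  decide +kernel

theorem nine : ¬ (Wn 9 + 1).Prime := by
  have h := nine_check
  rw [Bool.and_eq_true, Bool.not_eq_true', Nat.blt_eq] at h
  refine not_prime_of_fermat ?_ h.1 ?_
  · have h1 := W_ge 9
    rw [← Wn_spec] at h1
    have h3 : (3 : ℤ) ≤ 3 ^ 3 ^ 9 := le_self_pow₀ (by norm_num) (by positivity)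
    generalize (3 : ℤ) ^ 3 ^ 9 = y at h1 h3
    omega
  · intro h2
    rw [h2] at h
    exact absurd h.2 (by decide)

end Pool.Agent.P.MP_eb267f_nt
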